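import Pool.Agent.Helper79.QRH.RoughFL
import Pool.Agent.Helper40.AV.St

/-!
# Project AV, module AV0: fundamental lemma with a quantitative level (helper82; the proofs follow
Helper79/QRH/FL.lean and RoughFL.lean)
-/

set_option autoImplicit false
set_option linter.unusedSectionVars false

open Finset Real

namespace Pool.Agent.Helper82.AV

open Pool.Agent.Helper79.QRH Pool.Agent.Helper10.QRH
open Pool.Agent.Helper44 Pool.Agent.Helper96.CPAP

/-- The summability of `n * (x ^ n / n!)`. -/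
theorem roughq_summable (x : ℝ) : Summable (fun n : ℕ => (n : ℝ) * (x ^ n / (n.factorial : ℝ))) := by
  rw [← summable_nat_add_iff 1]
  have h : (fun n : ℕ => ((n + 1 : ℕ) : ℝ) * (x ^ (n + 1) / ((n + 1).factorial : ℝ))) =
      fun n : ℕ => x * (x ^ n / (n.factorial : ℝ)) := by
    funext n
    rw [Nat.factorial_succ]
    push_cast
    have h1 : (n : ℝ) + 1 ≠ 0 := by positivity
    have h2 : (n.factorial : ℝ) ≠ 0 := by positivity
    field_simp
    ring
  rw [h]
  exact (Real.summable_pow_div_factorial x).mul_left x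

/-- The `k`-dimensional Brun-Hooley sieve with main term accuracy `1 ± δ` and level `K`, where
`δ K` is small. -/
theorem sieveFLQ (k : ℕ) (η : ℝ) (hη0 : 0 < η) (hη1 : η ≤ 1) :
    ∃ δ K : ℝ, 0 < δ ∧ δ ≤ 1 ∧ 1 ≤ K ∧ δ * K ≤ (4 * (k : ℝ) + 9) * η ∧ ∀ (α : Type) (P : ℕ → Prop),
    (∀ q, P q → q.Prime ∧ 2 * k ≤ q) → ∀ ν : ℕ → ℝ, (∀ q, P q → 0 ≤ ν q ∧ ν q ≤ k) →
    ∀ w : ℝ, 2 ≤ w → ∀ (Ω : Finset α) (occ : ℕ → α → Prop) (X E : ℝ), 0 ≤ X → 0 ≤ E →
    (∀ I : Finset ℕ, (∀ q ∈ I, P q ∧ (q : ℝ) ≤ w) →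
      |evCount Ω (fun ω => ∀ q ∈ I, occ q ω) - X * ∏ q ∈ I, (ν q / q)| ≤
        E * ((k : ℝ) + 1) ^ I.card) →
    evCount Ω (fun ω => ∀ q : ℕ, P q → (q : ℝ) ≤ w → ¬ occ q ω) ≤
        Real.exp δ * X * (∏ q ∈ pU P w, (1 - ν q / q)) + E * w ^ K ∧
    (1 - δ) * X * (∏ q ∈ pU P w, (1 - ν q / q)) - E * w ^ K ≤
      evCount Ω (fun ω => ∀ q : ℕ, P q → (q : ℝ) ≤ w → ¬ occ q ω) := by
  obtain ⟨S0, hS0, hS⟩ := sum_inv_pb_le
  set S1 : ℝ := k * S0 with hS1
  have hS1n : 0 ≤ S1 := by positivity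
  have hsum := roughq_summable S1
  obtain ⟨s0, hs0⟩ := summable_iff_vanishing_norm.mp hsum (Real.exp (-(2 * S1)) * η)
    (by positivity)
  set b := s0.sup id + 1 with hb
  have hb1 : (1 : ℝ) ≤ b := by
    have : 1 ≤ b := by omega
    exact_mod_cast this
  have hb2 : (0 : ℝ) < 2 * b + 1 := by linarith
  set δ : ℝ := η / (2 * b + 1) with hδ
  have hδ0 : 0 < δ := by positivity
  have hδ1 : δ ≤ 1 := by
    rw [hδ, div_le_one hb2]
    linarith
  set K0 : ℝ := ((k : ℝ) + 2) * (4 * b + 6) with hK0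
  have hK0' : 0 ≤ K0 := by positivity
  have hk0 : (0 : ℝ) ≤ k := Nat.cast_nonneg k
  refine ⟨δ, K0 + 2, hδ0, hδ1, by linarith, ?_, ?_⟩
  · rw [hδ, div_mul_eq_mul_div, div_le_iff₀ hb2]
    have h1 : K0 + 2 ≤ (4 * (k : ℝ) + 9) * (2 * b + 1) := by
      rw [hK0]
      nlinarith [mul_nonneg hk0 (sub_nonneg.2 hb1)]
    calc η * (K0 + 2) ≤ η * ((4 * (k : ℝ) + 9) * (2 * b + 1)) :=
          mul_le_mul_of_nonneg_left h1 hη0.le
      _ = (4 * (k : ℝ) + 9) * η * (2 * b + 1) := by ring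
  intro α P hP ν hν w hw Ω occ X E hX hE hcnt
  have hP' : ∀ q, P q → q.Prime := fun q h => (hP q h).1
  have hw1 : (1 : ℝ) ≤ w := by linarith
  have hw0 : (0 : ℝ) < w := by linarith
  have hdisj : ∀ i j : Fin (nb w), i ≠ j → Disjoint (pb P w i) (pb P w j) := by
    intro i j hij
    exact pb_disjoint hw1 (fun h => hij (Fin.ext h))
  have hx : ∀ j : ℕ, ∀ i ∈ pb P w j, 0 ≤ ν i / i ∧ ν i / i ≤ 1 / 2 := by
    intro j i hi
    rw [mem_pb] at hi
    have h1 := hP i hi.2
    have h2 := hν i hi.2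
    have hq0 : (0 : ℝ) < i := by exact_mod_cast h1.1.pos
    have h3 : (2 : ℝ) * k ≤ i := by exact_mod_cast h1.2
    refine ⟨div_nonneg h2.1 hq0.le, ?_⟩
    rw [div_le_iff₀ hq0]
    linarith
  have hcnt' : ∀ I : Finset ℕ,
      I ⊆ Finset.univ.biUnion (fun j : Fin (nb w) => pb P w j) →
      |evCount Ω (fun ω => ∀ i ∈ I, occ i ω) - X * ∏ i ∈ I, (ν i / i)| ≤
        E * ((k : ℝ) + 1) ^ I.card := by
    intro I hI
    apply hcnt
    intro q hq
    have := hI hq
    rwa [biUnion_pb hP' hw, mem_pU hP' hw0.le] at this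
  have hsumx : ∀ j : ℕ, ∑ i ∈ pb P w j, ν i / i ≤ S1 := by
    intro j
    calc ∑ i ∈ pb P w j, ν i / i ≤ ∑ i ∈ pb P w j, k * ((1 : ℝ) / i) := by
          apply Finset.sum_le_sum
          intro i hi
          rw [mem_pb] at hi
          have hq0 : (0 : ℝ) < i := by exact_mod_cast (hP' i hi.2).pos
          rw [mul_one_div]
          exact div_le_div_of_nonneg_right (hν i hi.2).2 hq0.le
      _ = k * ∑ i ∈ pb P w j, (1 : ℝ) / i := by rw [Finset.mul_sum]
      _ ≤ k * S0 := mul_le_mul_of_nonneg_left (hS P hP' w hw j) (by positivity)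
  have hVlow : ∀ j : Fin (nb w), Real.exp (-(2 * S1)) ≤ ∏ i ∈ pb P w j, (1 - ν i / i) := by
    intro j
    calc Real.exp (-(2 * S1)) ≤ Real.exp (-∑ i ∈ pb P w j, 2 * (ν i / i)) := by
          apply Real.exp_le_exp.mpr
          rw [← Finset.mul_sum]
          have := hsumx j
          linarith
      _ = ∏ i ∈ pb P w j, Real.exp (-(2 * (ν i / i))) := by
          rw [← Finset.sum_neg_distrib, Real.exp_sum]
      _ ≤ _ := by
          apply Finset.prod_le_prod
          · intro i _; exact (Real.exp_pos _).le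
          · intro i hi
            have := hx j i hi
            exact one_sub_ge_exp this.1 this.2
  have hr : ∑ j : Fin (nb w), es (pb P w j) (2 * (b + (j : ℕ)) + 1) (fun q => ν q / q) /
      ∏ i ∈ pb P w j, (1 - ν i / i) ≤ δ := by
    have hterm : ∀ j : Fin (nb w), es (pb P w j) (2 * (b + (j : ℕ)) + 1) (fun q => ν q / q) /
        ∏ i ∈ pb P w j, (1 - ν i / i) ≤
        (S1 ^ (2 * (b + (j : ℕ)) + 1) / ((2 * (b + (j : ℕ)) + 1).factorial : ℝ)) *
          Real.exp (2 * S1) := by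
      intro j
      have h1 : es (pb P w j) (2 * (b + (j : ℕ)) + 1) (fun q => ν q / q) ≤
          S1 ^ (2 * (b + (j : ℕ)) + 1) / ((2 * (b + (j : ℕ)) + 1).factorial : ℝ) := by
        refine (es_le_pow_div_factorial _ _ (fun i hi => (hx j i hi).1) _).trans ?_
        apply div_le_div_of_nonneg_right _ (by positivity)
        apply pow_le_pow_left₀ (Finset.sum_nonneg fun i hi => (hx j i hi).1) (hsumx j)
      have h2 := hVlow j
      have h3 : 0 < Real.exp (-(2 * S1)) := Real.exp_pos _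
      rw [div_le_iff₀ (h3.trans_le h2)]
      calc es (pb P w j) (2 * (b + (j : ℕ)) + 1) (fun q => ν q / q)
          ≤ S1 ^ (2 * (b + (j : ℕ)) + 1) / ((2 * (b + (j : ℕ)) + 1).factorial : ℝ) * 1 := by
            rw [mul_one]; exact h1
        _ = S1 ^ (2 * (b + (j : ℕ)) + 1) / ((2 * (b + (j : ℕ)) + 1).factorial : ℝ) *
              (Real.exp (2 * S1) * Real.exp (-(2 * S1))) := by
            rw [← Real.exp_add]; simp
        _ ≤ S1 ^ (2 * (b + (j : ℕ)) + 1) / ((2 * (b + (j : ℕ)) + 1).factorial : ℝ) *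
              (Real.exp (2 * S1) * ∏ i ∈ pb P w j, (1 - ν i / i)) := by
            gcongr
        _ = _ := by ring
    calc ∑ j : Fin (nb w), es (pb P w j) (2 * (b + (j : ℕ)) + 1) (fun q => ν q / q) /
          ∏ i ∈ pb P w j, (1 - ν i / i)
        ≤ ∑ j : Fin (nb w), (S1 ^ (2 * (b + (j : ℕ)) + 1) /
            ((2 * (b + (j : ℕ)) + 1).factorial : ℝ)) * Real.exp (2 * S1) :=
          Finset.sum_le_sum fun j _ => hterm j
      _ = (∑ n ∈ (Finset.univ : Finset (Fin (nb w))).image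
            (fun j : Fin (nb w) => 2 * (b + (j : ℕ)) + 1),
            S1 ^ n / (n.factorial : ℝ)) * Real.exp (2 * S1) := by
          rw [← Finset.sum_mul, Finset.sum_image]
          intro i _ j _ hij
          apply Fin.ext
          simp only at hij
          omega
      _ ≤ (Real.exp (-(2 * S1)) * δ) * Real.exp (2 * S1) := by
          apply mul_le_mul_of_nonneg_right _ (Real.exp_pos _).le
          have h4 := hs0 ((Finset.univ : Finset (Fin (nb w))).image
            (fun j : Fin (nb w) => 2 * (b + (j : ℕ)) + 1)) ?_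
          · rw [Real.norm_eq_abs] at h4
            have h5 := (le_abs_self _).trans h4.le
            rw [hδ, mul_div_assoc', le_div_iff₀ hb2, mul_comm, Finset.mul_sum]
            refine le_trans (Finset.sum_le_sum fun n hn => ?_) h5
            rw [Finset.mem_image] at hn
            obtain ⟨j, _, rfl⟩ := hn
            apply mul_le_mul_of_nonneg_right _ (by positivity)
            push_cast
            linarith [Nat.cast_nonneg (α := ℝ) (j : ℕ)]
          · rw [Finset.disjoint_left]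
            intro n hn hn'
            rw [Finset.mem_image] at hn
            obtain ⟨j, _, rfl⟩ := hn
            have : id (2 * (b + (j : ℕ)) + 1) ≤ s0.sup id := Finset.le_sup (f := id) hn'
            simp only [id] at this
            omega
      _ = δ := by
          rw [mul_comm (Real.exp (-(2 * S1))) δ, mul_assoc, ← Real.exp_add]; simp
  have hmain := brun_hooleyD Ω occ (fun j : Fin (nb w) => pb P w j) hdisj (fun q => ν q / q)
    (fun j i hi => hx j i hi) X E ((k : ℝ) + 1) δ hX hE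
    (by linarith [Nat.cast_nonneg (α := ℝ) k]) hδ1
    hcnt' (fun j => 2 * (b + (j : ℕ)))
    (fun j => even_two_mul _) hr
  -- identify the event
  have hevent : (fun ω : α => ∀ j : Fin (nb w), ∀ i ∈ pb P w j, ¬ occ i ω) =
      (fun ω => ∀ q : ℕ, P q → (q : ℝ) ≤ w → ¬ occ q ω) := by
    funext ω
    apply propext
    constructor
    · intro h q hq hqw
      have : q ∈ (Finset.univ : Finset (Fin (nb w))).biUnion (fun j => pb P w j) := by
        rw [biUnion_pb hP' hw, mem_pU hP' hw0.le]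
        exact ⟨hq, hqw⟩
      rw [Finset.mem_biUnion] at this
      obtain ⟨j, _, hj⟩ := this
      exact h j q hj
    · intro h j i hi
      have hi' : i ∈ (Finset.univ : Finset (Fin (nb w))).biUnion (fun j => pb P w j) :=
        Finset.mem_biUnion.mpr ⟨j, Finset.mem_univ _, hi⟩
      rw [biUnion_pb hP' hw, mem_pU hP' hw0.le] at hi'
      exact h i hi'.1 hi'.2
  rw [hevent] at hmain
  -- the product
  have hprodV : ∏ j : Fin (nb w), ∏ i ∈ pb P w j, (1 - ν i / i) =
      ∏ q ∈ pU P w, (1 - ν q / q) := by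
    rw [← Finset.prod_biUnion, biUnion_pb hP' hw]
    intro i _ j _ hij
    exact hdisj i j hij
  rw [hprodV] at hmain
  have hprod := prod_pb_card_le hP' k hw b
  have hprod0 : 0 ≤ ∏ j : Fin (nb w),
      (((k : ℝ) + 1) * ((pb P w j).card : ℝ) + 1) ^ (2 * (b + (j : ℕ)) + 1) :=
    Finset.prod_nonneg fun j _ => by positivity
  have hwK : w ^ (K0 + 2) = w ^ K0 * w ^ 2 := by
    rw [Real.rpow_add hw0]
    norm_num
  have hwK0 : 0 < w ^ K0 := Real.rpow_pos_of_pos hw0 _
  have hnb : (nb w : ℝ) + 1 ≤ w ^ 2 := by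
    unfold nb
    push_cast
    have := Nat.floor_le hw0.le
    nlinarith
  constructor
  · refine hmain.1.trans ?_
    have h2 : E * ∏ j : Fin (nb w),
        (((k : ℝ) + 1) * ((pb P w j).card : ℝ) + 1) ^ (2 * (b + (j : ℕ)) + 1) ≤
        E * w ^ (K0 + 2) := by
      apply mul_le_mul_of_nonneg_left _ hE
      refine hprod.trans ?_
      rw [hwK]
      have : (1 : ℝ) ≤ w ^ 2 := one_le_pow₀ hw1
      nlinarith
    linarith
  · refine le_trans ?_ hmain.2
    have h2 : E * (((nb w : ℕ) + 1) *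
        ∏ j : Fin (nb w), (((k : ℝ) + 1) * ((pb P w j).card : ℝ) + 1) ^ (2 * (b + (j : ℕ)) + 1)) ≤
        E * w ^ (K0 + 2) := by
      apply mul_le_mul_of_nonneg_left _ hE
      rw [hwK, mul_comm (w ^ K0)]
      exact mul_le_mul hnb hprod hprod0 (by positivity)
    linarith

/-- AV0. -/
theorem roughQ : Pool.Agent.Helper40.AV.RoughQ := by
  classical
  intro η0 hη0
  obtain ⟨η, hη⟩ : ∃ η, η = min (η0 / 60) 1 := ⟨_, rfl⟩
  have hηpos : 0 < η := by rw [hη]; exact lt_min (by positivity) one_pos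
  have hη1 : η ≤ 1 := by rw [hη]; exact min_le_right _ _
  have hηe : η ≤ η0 / 60 := by rw [hη]; exact min_le_left _ _
  obtain ⟨δ, K, hδ0, hδ1, hK, hδK, hFL⟩ := sieveFLQ 1 η hηpos hη1
  obtain ⟨c, C, hc, hC, hM⟩ := mertens_prod
  -- the threshold
  have hlim : ∀ᶠ z : ℝ in Filter.atTop, Real.log z / z ≤ δ * c := by
    have h1 : Filter.Tendsto (fun z : ℝ => Real.log z / z) Filter.atTop (nhds 0) :=
      Real.isLittleO_log_id_atTop.tendsto_div_nhds_zero
    have h2 : (0 : ℝ) < δ * c := by positivity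
    filter_upwards [(tendsto_order.1 h1).2 _ h2] with z hz using hz.le
  obtain ⟨z1, hz1⟩ := Filter.eventually_atTop.1 hlim
  refine ⟨2 * δ, K + 1, max z1 2, by linarith, by linarith, ?_, ?_⟩
  · push_cast at hδK
    nlinarith
  intro z hz y l hl
  have hz2 : 2 ≤ z := (le_max_right _ _).trans hz
  have hz0 : 0 < z := by linarith
  have hlog := hz1 z ((le_max_left _ _).trans hz)
  have hlz : 0 < Real.log z := Real.log_pos (by linarith)
  have hl0 : (0 : ℝ) ≤ l := Nat.cast_nonneg l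
  obtain ⟨V, hV⟩ : ∃ V, V = ∏ r ∈ primesUpTo z, (1 - (1 : ℝ) / r) := ⟨_, rfl⟩
  have hVc : c / Real.log z ≤ V := by rw [hV]; exact (hM z hz2).1
  have hV0 : 0 < V := lt_of_lt_of_le (by positivity) hVc
  have hpU : pU Nat.Prime z = primesUpTo z := by
    ext q
    rw [mem_pU (fun _ h => h) hz0.le, mem_primesUpTo hz0.le]
  have hcnt : ∀ I : Finset ℕ, (∀ q ∈ I, q.Prime ∧ (q : ℝ) ≤ z) →
      |evCount (Finset.Ico y (y + l)) (fun n => ∀ q ∈ I, q ∣ n) -
        (l : ℝ) * ∏ q ∈ I, ((1 : ℝ) / q)| ≤ 1 * (((1 : ℕ) : ℝ) + 1) ^ I.card := by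
    intro I hI
    have hdvd : ∀ n : ℕ, (∀ q ∈ I, q ∣ n) ↔ (∏ q ∈ I, q) ∣ n := by
      intro n
      constructor
      · intro h
        exact Finset.prod_primes_dvd n (fun q hq => (hI q hq).1.prime) h
      · intro h q hq
        exact (Finset.dvd_prod_of_mem _ hq).trans h
    have hpos : 0 < ∏ q ∈ I, q := Finset.prod_pos fun q hq => (hI q hq).1.pos
    have h1 := card_dvd_Ico (∏ q ∈ I, q) hpos y l
    have h2 : evCount (Finset.Ico y (y + l)) (fun n => ∀ q ∈ I, q ∣ n) =
        (((Finset.Ico y (y + l)).filter (fun n => (∏ q ∈ I, q) ∣ n)).card : ℝ) := by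
      rw [evCount_eq]
      congr 2
      ext n
      simp only [Finset.mem_filter, hdvd]
    have h3 : (l : ℝ) * ∏ q ∈ I, ((1 : ℝ) / q) = l / ((∏ q ∈ I, q : ℕ) : ℝ) := by
      push_cast
      rw [Finset.prod_div_distrib, Finset.prod_const_one, mul_one_div]
    rw [h2, h3]
    refine h1.trans ?_
    rw [one_mul]
    apply one_le_pow₀
    push_cast
    norm_num
  obtain ⟨_, hlow⟩ := hFL ℕ Nat.Prime (fun q hq => ⟨hq, by have := hq.two_le; omega⟩)
    (fun _ => 1) (fun q _ => ⟨zero_le_one, by push_cast; exact le_rfl⟩) z hz2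
    (Finset.Ico y (y + l)) (fun q n => q ∣ n) l 1 hl0 zero_le_one hcnt
  rw [hpU, ← hV] at hlow
  have hev : evCount (Finset.Ico y (y + l))
      (fun n => ∀ q : ℕ, q.Prime → (q : ℝ) ≤ z → ¬ q ∣ n) =
      (((Finset.Ico y (y + l)).filter (fun n => ∀ r : ℕ, r.Prime → r ∣ n → z < r)).card : ℝ) := by
    rw [evCount_eq]
    congr 2
    ext n
    simp only [Finset.mem_filter]
    constructor
    · rintro ⟨h1, h2⟩
      exact ⟨h1, fun r hr hrn => not_le.1 fun h => h2 r hr h hrn⟩
    · rintro ⟨h1, h2⟩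
      exact ⟨h1, fun r hr h hrn => absurd (h2 r hr hrn) (not_lt.2 h)⟩
  rw [hev] at hlow
  have hVV : Pool.Agent.Helper40.AV.VV z = V := by rw [hV]; rfl
  rw [hVV]
  -- the error term
  have herr : 1 * z ^ K ≤ δ * l * V := by
    rw [one_mul]
    have h1 : z ^ (K + 1) = z ^ K * z := by rw [Real.rpow_add hz0, Real.rpow_one]
    rw [h1] at hl
    have h2 : z ^ K ≤ l / z := by
      rw [le_div_iff₀ hz0]
      exact hl
    refine h2.trans ?_
    have h3 : (l : ℝ) / z ≤ δ * l * (c / Real.log z) := by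
      have h4 : (l : ℝ) / z = l * (Real.log z / z) / Real.log z := by
        field_simp
      rw [h4, mul_div_assoc' (δ * (l : ℝ)) c]
      apply div_le_div_of_nonneg_right _ hlz.le
      calc (l : ℝ) * (Real.log z / z) ≤ l * (δ * c) := mul_le_mul_of_nonneg_left hlog hl0
        _ = δ * l * c := by ring
    exact h3.trans (mul_le_mul_of_nonneg_left hVc (by positivity))
  have hlow' : (1 - δ) * l * V - 1 * z ^ K ≤
      ((Pool.Agent.Helper40.AV.RS y l z).card : ℝ) := hlow
  linarith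

end Pool.Agent.Helper82.AV
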